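import Pool.Agent.helper84.LQ.SpecH
import Pool.Agent.helper34.IR.FWD
import Pool.Agent.helper9.IR.BK2

/-!
# Row `lq:FGQ`: forward functions outside of the low entropy part, windows at all scales
-/

open scoped MatrixGroups ContDiff Topology UpperHalfPlane ComplexConjugate
open UpperHalfPlane MeasureTheory Filter Set

set_option autoImplicit false

namespace Pool.Agent.LP

open Pool.Agent.RS
open Pool.Agent.MS (bq BB BA SF pf)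
open Pool.Agent.HV (FW)
open Pool.Agent.EN (XG MG mkX mkM fl pr)
open Pool.Agent.ER (Low LowJ)

noncomputable section

/-- a smooth function with values in `[0, 1]`, derivatives bounded by `K` and `L`, equal to `1` on `E` up to a set of
measure `d`, supported in `W` -/
def FGQ_P (Γ : Subgroup SL(2, ℝ)) (μ : Measure (XG Γ)) (E : Set (XG Γ)) (d K L : ℝ) (W : Set SL(2, ℝ)) (Ψ : SL(2, ℝ) → ℝ) : Prop :=
  (∃ Ψa Ψn Ψl : SL(2, ℝ) → ℝ, SF Γ Ψ Ψa Ψn Ψl ∧ (∀ g, 0 ≤ Ψ g ∧ Ψ g ≤ 1) ∧ (∀ g, |Ψn g| ≤ K) ∧ ∀ g, |Ψl g| ≤ L) ∧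
    (∃ B : Set (XG Γ), μ.real B ≤ d ∧ ∀ g, mkX Γ g ∈ E → mkX Γ g ∉ B → Ψ g = 1) ∧ ∀ g, Ψ g ≠ 0 → g ∈ W

lemma FGQ_mul (hSFP : IR.SFP_stmt) {Γ : Subgroup SL(2, ℝ)} {μ : Measure (XG Γ)} {E : Set (XG Γ)} {d d' K K' L L' : ℝ}
    {W W' : Set SL(2, ℝ)} {Ψ Φ : SL(2, ℝ) → ℝ} (h1 : FGQ_P Γ μ E d K L W Ψ) (h2 : FGQ_P Γ μ E d' K' L' W' Φ) :
    FGQ_P Γ μ E (d + d') (K + K') (L + L') (W ∩ W') (fun g => Ψ g * Φ g) := by
  obtain ⟨⟨Ψa, Ψn, Ψl, s1, p1, n1, l1⟩, ⟨B, b1, c1⟩, e1⟩ := h1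
  obtain ⟨⟨Φa, Φn, Φl, s2, p2, n2, l2⟩, ⟨B', b2, c2⟩, e2⟩ := h2
  refine ⟨⟨_, _, _, (hSFP Γ Ψ Ψa Ψn Ψl s1).1 Φ Φa Φn Φl s2, ?_, ?_, ?_⟩,
    ⟨B ∪ B', (measureReal_union_le _ _).trans (add_le_add b1 b2), fun g hg hB => ?_⟩,
    fun g hg => ⟨e1 g (left_ne_zero_of_mul hg), e2 g (right_ne_zero_of_mul hg)⟩⟩
  · intro g
    exact ⟨mul_nonneg (p1 g).1 (p2 g).1, mul_le_one₀ (p1 g).2 (p2 g).1 (p2 g).2⟩
  · intro g
    exact IR.BK2_mulb (p1 g).1 (p1 g).2 (p2 g).1 (p2 g).2 (n1 g) (n2 g)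
  · intro g
    exact IR.BK2_mulb (p1 g).1 (p1 g).2 (p2 g).1 (p2 g).2 (l1 g) (l2 g)
  · rw [mem_union, not_or] at hB
    show Ψ g * Φ g = 1
    rw [c1 g hg hB.1, c2 g hg hB.2, mul_one]

/-- one window -/
lemma FGQ_box (hSFP : IR.SFP_stmt) (hXFL : EN.XFL_stmt) {Γ : Subgroup SL(2, ℝ)} {μ : Measure (XG Γ)} {E E' : Set (XG Γ)}
    {b d C n L : ℝ} {A : Finset SL(2, ℝ)} {Ψ Ψa Ψn Ψl : SL(2, ℝ) → ℝ} (hE : E' ⊆ E)
    (h1 : SF Γ Ψ Ψa Ψn Ψl) (h2 : ∀ g, 0 ≤ Ψ g ∧ Ψ g ≤ 1) (h3 : ∀ g, |Ψn g| ≤ C) (h4 : ∀ g, |Ψl g| ≤ C * Real.exp n)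
    (h5 : ∀ g, (∃ y ∈ A, ∃ γ : Γ, bq b b (b * Real.exp (-n)) (y⁻¹ * (γ : SL(2, ℝ)) * g)) → Ψ g = 1)
    (h6 : ∀ g, Ψ g ≠ 0 → ∃ y ∈ A, ∃ γ : Γ, bq (16 * b) (16 * b) (16 * b * Real.exp (-n)) (y⁻¹ * (γ : SL(2, ℝ)) * g))
    (s : ℕ) (hs : (s : ℝ) + n ≤ L) (hC : 0 ≤ C)
    (hA : μ.real (E \ (fl Γ s) ⁻¹' IR.BX Γ A b n) ≤ d) :
    FGQ_P Γ μ E' d C (C * Real.exp L) {g | g * aM s ∈ FW Γ A (16 * b) (Real.exp (-n))} (fun g => Ψ (g * aM s)) := by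
  refine ⟨⟨_, _, _, (hSFP Γ _ _ _ _ h1).2.2 (s : ℝ), fun g => h2 _, ?_, ?_⟩, ⟨_, hA, ?_⟩, fun g hg => h6 _ hg⟩
  · intro g
    show |Real.exp (-(s : ℝ)) * Ψn (g * aM s)| ≤ C
    rw [abs_mul, Real.abs_exp]
    exact (mul_le_of_le_one_left (abs_nonneg _) (Real.exp_le_one_iff.2 (by linarith [Nat.cast_nonneg (α := ℝ) s]))).trans (h3 _)
  · intro g
    show |Real.exp (s : ℝ) * Ψl (g * aM s)| ≤ C * Real.exp L
    rw [abs_mul, Real.abs_exp]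
    calc Real.exp (s : ℝ) * |Ψl (g * aM s)| ≤ Real.exp (s : ℝ) * (C * Real.exp n) := mul_le_mul_of_nonneg_left (h4 _) (Real.exp_pos _).le
      _ = C * Real.exp (s + n) := by
          rw [mul_left_comm, ← Real.exp_add]
      _ ≤ C * Real.exp L := mul_le_mul_of_nonneg_left (Real.exp_le_exp.2 hs) hC
  · intro g hg hgB
    refine IR.FWD_one hXFL h5 g ?_
    by_contra hcon
    exact hgB ⟨hE hg, hcon⟩

/-- the bad boxes -/
lemma FGQ_bad (hSFP : IR.SFP_stmt) (hXFL : EN.XFL_stmt) {Γ : Subgroup SL(2, ℝ)} {μ : Measure (XG Γ)} {E : Set (XG Γ)}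
    {b d C n L β : ℝ} {A : Finset SL(2, ℝ)} {Ψ Ψa Ψn Ψl : SL(2, ℝ) → ℝ}
    (h1 : SF Γ Ψ Ψa Ψn Ψl) (h2 : ∀ g, 0 ≤ Ψ g ∧ Ψ g ≤ 1) (h3 : ∀ g, |Ψn g| ≤ C) (h4 : ∀ g, |Ψl g| ≤ C * Real.exp n)
    (h5 : ∀ g, (∃ y ∈ A, ∃ γ : Γ, bq b b (b * Real.exp (-n)) (y⁻¹ * (γ : SL(2, ℝ)) * g)) → Ψ g = 1)
    (h6 : ∀ g, Ψ g ≠ 0 → ∃ y ∈ A, ∃ γ : Γ, bq (16 * b) (16 * b) (16 * b * Real.exp (-n)) (y⁻¹ * (γ : SL(2, ℝ)) * g))
    (hs : n ≤ L) (hC : 0 ≤ C) (hA : μ.real (IR.BX Γ A (16 * b) n \ Low Γ μ β) ≤ d) :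
    FGQ_P Γ μ (E \ Low Γ μ β) d C (C * Real.exp L) {g | g ∉ FW Γ A b (Real.exp (-n))} (fun g => 1 - Ψ g) := by
  refine ⟨⟨_, _, _, (hSFP Γ _ _ _ _ h1).2.1, ?_, ?_, ?_⟩, ⟨_, hA, ?_⟩, ?_⟩
  · intro g
    have := h2 g
    exact ⟨by linarith [this.2], by linarith [this.1]⟩
  · intro g
    show |-Ψn g| ≤ C
    rw [abs_neg]
    exact h3 g
  · intro g
    show |-Ψl g| ≤ C * Real.exp L
    rw [abs_neg]
    exact (h4 g).trans (mul_le_mul_of_nonneg_left (Real.exp_le_exp.2 hs) hC)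
  · intro g hg hgB
    show 1 - Ψ g = 1
    have h7 : Ψ g = 0 := by
      by_contra hcon
      exact hgB ⟨IR.BK2_box' hXFL Γ A (16 * b) n g (h6 g hcon), hg.2⟩
    rw [h7, sub_zero]
  · intro g hg hW
    apply hg
    show 1 - Ψ g = 0
    rw [h5 g hW, sub_self]

/-- smallness of the constant -/
lemma FGQ_small {C Q κ : ℝ} (hC : 1 ≤ C) (hQ : 0 < Q) (hκ : 0 < κ) (hκ1 : κ ≤ 1) :
    ∃ m1 : ℕ, ∀ m : ℕ, m1 ≤ m → C * (Real.exp (-κ * m) + Real.exp (-m)) ≤ Q := by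
  obtain ⟨m1, h1⟩ := exists_nat_ge (2 * C / (Q * κ))
  refine ⟨m1, fun m hm => ?_⟩
  have hm' : 2 * C / (Q * κ) ≤ m := h1.trans (by exact_mod_cast hm)
  rw [div_le_iff₀ (by positivity)] at hm'
  have hm0 : (0 : ℝ) ≤ m := Nat.cast_nonneg m
  have key : ∀ x : ℝ, 2 * C ≤ Q * x → C * Real.exp (-x) ≤ Q / 2 := by
    intro x hx
    have h2 : x ≤ Real.exp x := by linarith [Real.add_one_le_exp x]
    have h3 : Real.exp x * Real.exp (-x) = 1 := by rw [← Real.exp_add, add_neg_cancel, Real.exp_zero]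
    have h4 : 0 < Real.exp (-x) := Real.exp_pos _
    have h5 : 2 * C ≤ Q * Real.exp x := hx.trans (mul_le_mul_of_nonneg_left h2 hQ.le)
    have h6 : 2 * C * Real.exp (-x) ≤ Q * Real.exp x * Real.exp (-x) := mul_le_mul_of_nonneg_right h5 h4.le
    rw [mul_assoc Q, h3] at h6
    linarith
  have k1 := key (κ * m) (by linarith)
  have k2 := key m (by nlinarith [mul_nonneg hQ.le hm0])
  rw [neg_mul, mul_add]
  linarith

/-- the set where a smooth function does not vanish on an unstable leaf -/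
lemma FGQ_meas {Γ : Subgroup SL(2, ℝ)} {Ψ Ψa Ψn Ψl : SL(2, ℝ) → ℝ} (h1 : SF Γ Ψ Ψa Ψn Ψl)
    (hl : ∀ s t : ℝ, lM (s + t) = lM s * lM t) (g : SL(2, ℝ)) : MeasurableSet {v : ℝ | Ψ (g * lM v) ≠ 0} := by
  have hc : Continuous fun v : ℝ => Ψ (g * lM v) := by
    rw [continuous_iff_continuousAt]
    intro v
    have h2 := (h1.dl (g * lM v)).continuousAt
    have h3 : (fun w : ℝ => Ψ (g * lM w)) = (fun t : ℝ => Ψ (g * lM v * lM t)) ∘ fun w : ℝ => w - v := by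
      funext w
      show Ψ (g * lM w) = Ψ (g * lM v * lM (w - v))
      rw [mul_assoc, ← hl, add_sub_cancel]
    rw [h3]
    apply ContinuousAt.comp
    · show ContinuousAt _ (v - v)
      rw [sub_self]
      exact h2
    · exact (continuous_id.sub continuous_const).continuousAt
  exact (isOpen_ne.preimage hc).measurableSet

theorem FGQ_proof (hBXM : MS.BXM_stmt) (hSFP : IR.SFP_stmt) (hWCO : WCO_stmt) (hLOB : IR.LOB_stmt) (hLGQ : LGQ_stmt)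
    (hXFL : EN.XFL_stmt) (hGLC : RS.GLC_stmt) : FGQ_stmt := by
  intro Γ μ E a η h β G hΓ hμ hinv ha0 ha1 hη hh0 hh1 hah h3ah hβ hGe hG2 hexp hCO δ hδ
  obtain ⟨δ', hδ'⟩ : ∃ δ' : ℝ, δ' = δ / (2 * G + 1) := ⟨_, rfl⟩
  have hG0 : (0 : ℝ) ≤ G := Nat.cast_nonneg G
  have hδ'0 : 0 < δ' := by rw [hδ']; positivity
  have hδ'1 : (2 * (G : ℝ) + 1) * δ' = δ := by
    rw [hδ']
    field_simp
  obtain ⟨a0, ha0', -, hB⟩ := hBXM Γ hΓ
  obtain ⟨b1, hb1, hL⟩ := hLOB Γ μ β hΓ hμ hinv hβ δ' hδ'0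
  obtain ⟨b, hb, hba, hbb, hbc⟩ : ∃ b : ℝ, 0 < b ∧ b ≤ a0 ∧ 16 * b ≤ b1 ∧ b ≤ 1 / 6400 := by
    refine ⟨min a0 (min (b1 / 16) (1 / 6400)), ?_, ?_, ?_, ?_⟩
    · refine lt_min ha0' (lt_min (by linarith) (by norm_num))
    · exact min_le_left _ _
    · have : min a0 (min (b1 / 16) (1 / 6400)) ≤ b1 / 16 :=
        le_trans (min_le_right _ _) (min_le_left _ _)
      linarith
    · exact le_trans (min_le_right _ _) (min_le_right _ _)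
  obtain ⟨C, hC, hBX⟩ := hB b hb hba
  obtain ⟨q0, hq0⟩ := hL (16 * b) (by linarith) hbb
  refine ⟨(2 * G + 1) * C + 1, by nlinarith [mul_nonneg hG0 hC.le], fun C1 Q hC1 hQ => ?_⟩
  obtain ⟨C', m0, hC', hLG⟩ := hLGQ Γ hΓ C1 a η h β b G hC1 ha0 ha1 hη hh0 hh1 hah h3ah hG2 hb hbc hexp
  obtain ⟨n0, hn0⟩ := hWCO Γ μ E h hΓ hμ hinv hCO b η δ' hb hη hδ'0
  obtain ⟨m1, hm1⟩ := FGQ_small (κ := 1 - h - η) hC' hQ (by linarith) (by linarith)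
  obtain ⟨r, hr⟩ := hGe
  have hr1 : 1 ≤ r := by omega
  refine ⟨max (max m0 n0) (max q0 m1), fun m hm => ?_⟩
  have hma : m0 ≤ m := le_trans (le_trans (le_max_left _ _) (le_max_left _ _)) hm
  have hmb : n0 ≤ m := le_trans (le_trans (le_max_right _ _) (le_max_left _ _)) hm
  have hmc : q0 ≤ m := le_trans (le_trans (le_max_left _ _) (le_max_right _ _)) hm
  have hmd : m1 ≤ m := le_trans (le_trans (le_max_right _ _) (le_max_right _ _)) hm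
  have hm0 : (0 : ℝ) ≤ m := Nat.cast_nonneg m
  -- the boxes
  have hAj : ∀ j : ℕ, ∃ A : Finset SL(2, ℝ), 1 ≤ j → (A.card : ℝ) ≤ Real.exp ((h + η) * (j * m)) ∧
      ∀ s : ℕ, μ.real (E \ (fl Γ s) ⁻¹' IR.BX Γ A b (j * m)) ≤ δ' := by
    intro j
    by_cases hj : 1 ≤ j
    · have hl1 : m ≤ j * m := Nat.le_mul_of_pos_left m (by omega)
      obtain ⟨A, hA, mA⟩ := hn0 (j * m) (by omega)
      have e1 : ((j * m : ℕ) : ℝ) = (j : ℝ) * m := by push_cast; rfl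
      rw [e1] at hA mA
      exact ⟨A, fun _ => ⟨hA, mA⟩⟩
    · exact ⟨∅, fun h => absurd h hj⟩
  choose A hA' using hAj
  obtain ⟨Ab, hAb, hint⟩ := hLG m A hma (fun j hj _ => (hA' j hj).1)
  -- the bad boxes
  obtain ⟨Ψb, Ψba, Ψbn, Ψbl, Sb, Ib, Nb, Lb, Bb, Zb⟩ := hBX ((G : ℝ) * m) Ab (by positivity)
  have e2q : (2 * ((r * m : ℕ) : ℝ)) = (G : ℝ) * m := by
    rw [hr]
    push_cast
    ring
  have hrm : m ≤ r * m := Nat.le_mul_of_pos_left m (by omega)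
  have mb := hq0 (r * m) (by omega) Ab (by rw [e2q]; exact hAb)
  rw [e2q] at mb
  have P0 := FGQ_bad (E := E) (L := 2 * ((G : ℝ) * m)) hSFP hXFL Sb Ib Nb Lb Bb Zb
    (by linarith [mul_nonneg hG0 hm0]) hC.le mb
  -- the product
  have PF : ∀ k : ℕ, k ≤ G → ∃ Ψ : SL(2, ℝ) → ℝ, FGQ_P Γ μ (E \ Low Γ μ β) ((2 * k + 1) * δ') ((2 * k + 1) * C)
      ((2 * k + 1) * (C * Real.exp (2 * ((G : ℝ) * m))))
      {g | g ∉ FW Γ Ab b (Real.exp (-((G : ℝ) * m))) ∧ ∀ j : ℕ, 1 ≤ j → j ≤ k → g ∈ FW Γ (A j) (16 * b) (Real.exp (-(j * m))) ∧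
        g * aM ((2 * (G : ℝ) - j) * m) ∈ FW Γ (A j) (16 * b) (Real.exp (-(j * m)))} Ψ := by
    intro k
    induction k with
    | zero =>
        intro _
        obtain ⟨h1, ⟨B, h2, h3⟩, h4⟩ := P0
        refine ⟨_, ?_, ⟨B, ?_, h3⟩, ?_⟩
        · obtain ⟨Ψa, Ψn, Ψl, s1, s2, s3, s4⟩ := h1
          refine ⟨Ψa, Ψn, Ψl, s1, s2, fun g => (s3 g).trans (le_of_eq ?_), fun g => (s4 g).trans (le_of_eq ?_)⟩
          · push_cast
            ring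
          · push_cast
            ring
        · refine h2.trans (le_of_eq ?_)
          push_cast
          ring
        · intro g hg
          exact ⟨h4 g hg, fun j hj1 hj2 => absurd hj1 (by omega)⟩
    | succ k ih =>
        intro hk
        obtain ⟨Ψ, hP⟩ := ih (by omega)
        obtain ⟨hAc, hAm⟩ := hA' (k + 1) (by omega)
        have hnk : (0 : ℝ) ≤ ((k + 1 : ℕ) : ℝ) * m := by positivity
        obtain ⟨Φ, Φa, Φn, Φl, f1, f2, f3, f4, f5, f6⟩ := hBX (((k + 1 : ℕ) : ℝ) * m) (A (k + 1)) hnk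
        have hkG : ((k + 1 : ℕ) : ℝ) ≤ G := by exact_mod_cast hk
        have es : (((2 * G - (k + 1)) * m : ℕ) : ℝ) = (2 * (G : ℝ) - ((k + 1 : ℕ) : ℝ)) * m := by
          rw [Nat.cast_mul, Nat.cast_sub (by omega)]
          push_cast
          ring
        have hsub : E \ Low Γ μ β ⊆ E := sdiff_subset
        have Q1 := FGQ_box (L := 2 * ((G : ℝ) * m)) hSFP hXFL hsub f1 f2 f3 f4 f5 f6 0
          (by rw [Nat.cast_zero]; nlinarith [mul_nonneg hG0 hm0]) hC.le (hAm 0)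
        have Q2 := FGQ_box (L := 2 * ((G : ℝ) * m)) hSFP hXFL hsub f1 f2 f3 f4 f5 f6 ((2 * G - (k + 1)) * m)
          (by rw [es]; nlinarith) hC.le (hAm _)
        have hM := FGQ_mul hSFP hP (FGQ_mul hSFP Q1 Q2)
        obtain ⟨h1, ⟨B, h2, h3⟩, h4⟩ := hM
        refine ⟨_, ?_, ⟨B, ?_, h3⟩, ?_⟩
        · obtain ⟨Ψa, Ψn, Ψl, s1, s2, s3, s4⟩ := h1
          refine ⟨Ψa, Ψn, Ψl, s1, s2, fun g => (s3 g).trans (le_of_eq ?_), fun g => (s4 g).trans (le_of_eq ?_)⟩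
          · push_cast
            ring
          · push_cast
            ring
        · refine h2.trans (le_of_eq ?_)
          push_cast
          ring
        · intro g hg
          obtain ⟨⟨w1, w2⟩, w3, w4⟩ := h4 g hg
          refine ⟨w1, fun j hj1 hj2 => ?_⟩
          rcases Nat.lt_or_ge k j with hkj | hkj
          · obtain rfl : j = k + 1 := by omega
            have w3' : g * aM ((0 : ℕ) : ℝ) ∈ FW Γ (A (k + 1)) (16 * b) (Real.exp (-(((k + 1 : ℕ) : ℝ) * m))) := w3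
            have w4' : g * aM (((2 * G - (k + 1)) * m : ℕ) : ℝ) ∈ FW Γ (A (k + 1)) (16 * b) (Real.exp (-(((k + 1 : ℕ) : ℝ) * m))) := w4
            rw [es] at w4'
            have e0 : aM ((0 : ℕ) : ℝ) = 1 := by
              rw [Nat.cast_zero]
              have := IR.BK2_aM 0 0
              rw [add_zero] at this
              exact (mul_eq_left.1 this.symm)
            rw [e0, mul_one] at w3'
            exact ⟨w3', w4'⟩
          · exact w2 j hj1 hkj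
  obtain ⟨Ψ, ⟨Ψa, Ψn, Ψl, s1, s2, s3, s4⟩, ⟨B, hB1, hB2⟩, hsup⟩ := PF G le_rfl
  refine ⟨Ψ, Ψa, Ψn, Ψl, s1, s2, fun g => (s3 g).trans (by linarith), fun g => (s4 g).trans ?_, ?_, ?_⟩
  · have : 0 < Real.exp (2 * ((G : ℝ) * m)) := Real.exp_pos _
    nlinarith
  · have hsub : (E \ Low Γ μ β) \ IR.one Γ Ψ ⊆ B := by
      intro x hx
      obtain ⟨g, rfl⟩ := (hXFL Γ).2.2.2.2.1 x
      by_contra hcon
      exact hx.2 ⟨g, rfl, hB2 g hx.1 hcon⟩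
    exact (measureReal_mono hsub (measure_ne_top _ _)).trans (hB1.trans (le_of_eq hδ'1))
  · intro g J c hAR
    have hlM : ∀ s t : ℝ, lM (s + t) = lM s * lM t := by
      obtain ⟨-, -, -, -, -, -, -, -, -, -, -, -, h1, -⟩ := hGLC
      exact h1
    have hY : MeasurableSet (Icc (0 : ℝ) 1 ∩ {v | Ψ (g * lM v) ≠ 0}) := measurableSet_Icc.inter (FGQ_meas s1 hlM g)
    have h1 := hint g (Icc (0 : ℝ) 1 ∩ {v | Ψ (g * lM v) ≠ 0}) J c hY inter_subset_left (fun v hv => hsup _ hv.2) hAR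
    refine h1.trans (mul_le_mul_of_nonneg_right ?_ (Finset.sum_nonneg fun j _ => by positivity))
    have h2 := hm1 m hmd
    have e3 : (h + η - 1) * (m : ℝ) = -(1 - h - η) * m := by ring
    rw [e3]
    exact h2

end

end Pool.Agent.LP
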